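import Mathlib

/-!
Row DYA of the board zn (MP_52e316_nt): from the moments at all scales to the exceptional set.
-/

set_option autoImplicit false

namespace Pool.Agent.H12.ZN

/-- the dyadic scale -/
theorem scale {x : ℝ} (hx : 1 ≤ x) : ∃ j : ℕ, (2 : ℝ) ^ j ≤ x ∧ x < 2 ^ (j + 1) := by
  have h := exists_nat_pow_near hx (one_lt_two)
  exact h

theorem geo (J : Finset ℕ) : ∑ j ∈ J, ((1 : ℝ) / 2) ^ j ≤ 2 := by
  have h1 : Summable fun j : ℕ => ((1 : ℝ) / 2) ^ j := summable_geometric_two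
  calc ∑ j ∈ J, ((1 : ℝ) / 2) ^ j ≤ ∑' j : ℕ, ((1 : ℝ) / 2) ^ j :=
        h1.sum_le_tsum J fun j _ => by positivity
    _ = 2 := tsum_geometric_two

open Classical in
/-- the exceptional set -/
theorem dya {ι : Type} [Fintype ι] (E K : ℕ) (hEK : E + 1 ≤ 4 * K) (v : ι → ℝ → ℝ)
    (hv : ∀ i u, 0 ≤ v i u) (P w : ι → ℝ) (hP : ∀ i, 1 ≤ P i) (hw : ∀ i, 0 ≤ w i) (C0 A : ℝ)
    (hC0 : 0 ≤ C0) (hA : 0 < A)
    (h : ∀ R : ℝ, 1 ≤ R → ∀ u : ι → ℝ, (∀ i, |u i| ≤ R * P i) →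
      ∑ i, w i * v i (u i) ^ 4 ≤ C0 * R ^ E) :
    ∑ i with (∃ t : ℝ, |t| ≤ P i ∧ ∃ u : ℝ, A * (1 + |u - t|) ^ K < v i u), w i ≤
      2 ^ (2 * E + 1) * C0 / A ^ 4 := by
  obtain ⟨B, hB⟩ : ∃ B : Finset ι, B = Finset.univ.filter fun i =>
    ∃ t : ℝ, |t| ≤ P i ∧ ∃ u : ℝ, A * (1 + |u - t|) ^ K < v i u := ⟨_, rfl⟩
  rw [← hB]
  -- the scales
  have hsc : ∀ i : ι, ∃ (j : ℕ) (u : ℝ), |u| ≤ 2 ^ (j + 2) * P i ∧
      (i ∈ B → A * (2 ^ j) ^ K ≤ v i u) := by
    intro i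
    by_cases hi : i ∈ B
    · have hi' := hi
      rw [hB, Finset.mem_filter] at hi'
      obtain ⟨-, t, ht, u, hu⟩ := hi'
      obtain ⟨j, hj1, hj2⟩ := scale (x := 1 + |u - t|) (by linarith [abs_nonneg (u - t)])
      refine ⟨j, u, ?_, fun _ => ?_⟩
      · have h1 : |u| ≤ |u - t| + |t| := by
          have := abs_add_le (u - t) t
          rwa [sub_add_cancel] at this
        have h2 : (2 : ℝ) ^ (j + 2) = 2 * 2 ^ (j + 1) := by ring
        have h3 : (1 : ℝ) ≤ 2 ^ (j + 1) := one_le_pow₀ one_le_two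
        rw [h2]
        nlinarith [hP i]
      · refine le_trans ?_ hu.le
        gcongr
    · exact ⟨0, 0, by
        rw [abs_zero]
        have := hP i
        positivity, fun h => absurd h hi⟩
  choose j u hu hj using hsc
  -- one scale
  have hone : ∀ n : ℕ, ∑ i ∈ B.filter (fun i => j i = n), w i ≤
      2 ^ (2 * E) * C0 / A ^ 4 * (1 / 2) ^ n := by
    intro n
    have h1 := h (2 ^ (n + 2)) (one_le_pow₀ one_le_two) (fun i => if j i = n then u i else 0) (by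
      intro i
      by_cases hi : j i = n
      · rw [if_pos hi, ← hi]
        exact hu i
      · rw [if_neg hi, abs_zero]
        have := hP i
        positivity)
    have h2 : (∑ i ∈ B.filter (fun i => j i = n), w i) * (A * (2 ^ n) ^ K) ^ 4 ≤
        C0 * (2 ^ (n + 2)) ^ E := by
      refine le_trans ?_ h1
      rw [Finset.sum_mul]
      calc ∑ i ∈ B.filter (fun i => j i = n), w i * (A * (2 ^ n) ^ K) ^ 4 ≤
          ∑ i ∈ B.filter (fun i => j i = n), w i * v i (if j i = n then u i else 0) ^ 4 := by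
            refine Finset.sum_le_sum fun i hi => ?_
            rw [Finset.mem_filter] at hi
            have h3 := hj i hi.1
            rw [hi.2] at h3
            rw [if_pos hi.2]
            have h4 := hw i
            gcongr
        _ ≤ _ := Finset.sum_le_sum_of_subset_of_nonneg (Finset.subset_univ _) fun i _ _ =>
            mul_nonneg (hw i) (pow_nonneg (hv i _) 4)
    have hA4 : 0 < A ^ 4 := by positivity
    have hS0 : 0 ≤ ∑ i ∈ B.filter (fun i => j i = n), w i := Finset.sum_nonneg fun i _ => hw i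
    have h5 : (A * ((2 : ℝ) ^ n) ^ K) ^ 4 = A ^ 4 * (2 ^ n) ^ (4 * K) := by
      rw [mul_pow, ← pow_mul, mul_comm K 4]
    have h6 : ((2 : ℝ) ^ n) ^ (E + 1) ≤ (2 ^ n) ^ (4 * K) :=
      pow_le_pow_right₀ (one_le_pow₀ one_le_two) hEK
    have h7 : ((2 : ℝ) ^ (n + 2)) ^ E = 2 ^ (2 * E) * (2 ^ n) ^ E := by
      rw [pow_add, mul_pow, ← pow_mul 2 2 E]
      ring
    rw [h5, h7] at h2
    have h8 : (∑ i ∈ B.filter (fun i => j i = n), w i) * A ^ 4 * (2 ^ n) ^ (E + 1) ≤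
        C0 * (2 ^ (2 * E) * (2 ^ n) ^ E) := by
      refine le_trans ?_ h2
      rw [← mul_assoc]
      exact mul_le_mul_of_nonneg_left h6 (mul_nonneg hS0 hA4.le)
    have h9 : (0 : ℝ) < (2 ^ n) ^ E := by positivity
    have h10 : (0 : ℝ) < 2 ^ n := by positivity
    have h11 : (∑ i ∈ B.filter (fun i => j i = n), w i) * A ^ 4 * 2 ^ n ≤ C0 * 2 ^ (2 * E) := by
      rw [pow_succ ((2 : ℝ) ^ n) E] at h8
      have h12 : (∑ i ∈ B.filter (fun i => j i = n), w i) * A ^ 4 * 2 ^ n * (2 ^ n) ^ E ≤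
          C0 * 2 ^ (2 * E) * (2 ^ n) ^ E := by
        calc _ = (∑ i ∈ B.filter (fun i => j i = n), w i) * A ^ 4 * ((2 ^ n) ^ E * 2 ^ n) := by
              ring
          _ ≤ _ := h8
          _ = _ := by ring
      exact le_of_mul_le_mul_right h12 h9
    rw [one_div, inv_pow, ← div_eq_mul_inv, div_div, le_div_iff₀ (by positivity)]
    calc _ = (∑ i ∈ B.filter (fun i => j i = n), w i) * A ^ 4 * 2 ^ n := by ring
      _ ≤ _ := h11
      _ = _ := by ring
  -- all scales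
  calc ∑ i ∈ B, w i = ∑ n ∈ B.image j, ∑ i ∈ B.filter (fun i => j i = n), w i :=
        (Finset.sum_fiberwise_of_maps_to (fun i hi => Finset.mem_image_of_mem j hi) w).symm
    _ ≤ ∑ n ∈ B.image j, 2 ^ (2 * E) * C0 / A ^ 4 * (1 / 2) ^ n :=
        Finset.sum_le_sum fun n _ => hone n
    _ = 2 ^ (2 * E) * C0 / A ^ 4 * ∑ n ∈ B.image j, (1 / 2) ^ n := by rw [Finset.mul_sum]
    _ ≤ 2 ^ (2 * E) * C0 / A ^ 4 * 2 := mul_le_mul_of_nonneg_left (geo _) (by positivity)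
    _ = _ := by ring

end Pool.Agent.H12.ZN
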