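import Mathlib

/-!
Row JEN of the board zn (MP_52e316_nt): Jensen's inequality for a finite set of zeros.
-/

set_option autoImplicit false

namespace Pool.Agent.H12.ZN

open Complex Set Metric MeromorphicOn

theorem jen_ord {L : ℂ → ℂ} (hL : Differentiable ℂ L) (ρ : ℂ) :
    analyticOrderAt (fun z => 2 * L z) ρ = analyticOrderAt L ρ := by
  have h1 : AnalyticAt ℂ L ρ := hL.analyticAt ρ
  have h2 : AnalyticAt ℂ (fun _ : ℂ => (2 : ℂ)) ρ := analyticAt_const
  have h3 := analyticOrderAt_mul h2 h1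
  have h4 : analyticOrderAt (fun _ : ℂ => (2 : ℂ)) ρ = 0 :=
    h2.analyticOrderAt_eq_zero.2 two_ne_zero
  rw [h4, zero_add] at h3
  exact h3

/-- Jensen's inequality for a finite set of zeros -/
theorem jen (L : ℂ → ℂ) (s0 : ℂ) (R r M : ℝ) (hL : Differentiable ℂ L) (hr : 0 < r) (hrR : r < R)
    (hM : ∀ s, ‖s - s0‖ ≤ R → ‖L s‖ ≤ M) (h0 : 1 / 2 ≤ ‖L s0‖) (Z : Finset ℂ)
    (hZ : ∀ ρ ∈ Z, ‖ρ - s0‖ ≤ r) :
    (∑ ρ ∈ Z, (analyticOrderNatAt L ρ : ℝ)) * Real.log (R / r) ≤ Real.log (2 * M) := by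
  have hR : 0 < R := hr.trans hrR
  have hf : Differentiable ℂ (fun z => 2 * L z) := hL.const_mul 2
  have hM1 : 1 ≤ 2 * M := by
    have h1 := hM s0 (by rw [sub_self, norm_zero]; exact hR.le)
    linarith
  have hf0 : 1 ≤ ‖2 * L s0‖ := by
    rw [norm_mul, Complex.norm_ofNat]
    linarith
  have hfne : (fun z => 2 * L z) s0 ≠ 0 := by
    intro h
    rw [show (fun z => 2 * L z) s0 = 2 * L s0 from rfl] at h
    rw [h, norm_zero] at hf0
    linarith
  have hA : AnalyticOnNhd ℂ (fun z => 2 * L z) (closedBall s0 |R|) := fun z _ => hf.analyticAt z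
  have hAr : AnalyticOnNhd ℂ (fun z => 2 * L z) (closedBall s0 |r|) := fun z _ => hf.analyticAt z
  have hJ := AnalyticOnNhd.sum_divisor_le (c := s0) (r := r) (R := R) (M := 2 * M)
    (by rwa [abs_of_pos hr]) (by rwa [abs_of_pos hr, abs_of_pos hR]) hM1 hA hfne (by
      intro z hz
      rw [abs_of_pos hR, mem_sphere, dist_eq_norm] at hz
      rw [norm_mul, Complex.norm_ofNat]
      have := hM z hz.le
      linarith)
  have hlog : 0 < Real.log (R / r) := Real.log_pos (by rwa [one_lt_div hr])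
  rw [le_div_iff₀ hlog] at hJ
  have hle : Real.log (2 * M / ‖(fun z => 2 * L z) s0‖) ≤ Real.log (2 * M) := by
    refine Real.log_le_log (div_pos (by linarith) (norm_pos_iff.2 hfne)) ?_
    exact div_le_self (by linarith) hf0
  refine le_trans ?_ (hJ.trans hle)
  refine mul_le_mul_of_nonneg_right ?_ hlog.le
  -- the sum over `Z`
  obtain ⟨D, hD⟩ : ∃ D, D = divisor (fun z => 2 * L z) (closedBall s0 |r|) := ⟨_, rfl⟩
  rw [← hD]
  have hfin : (D : ℂ → ℤ).support.Finite := D.finiteSupport (isCompact_closedBall s0 |r|)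
  have hnn : ∀ u, 0 ≤ D u := by
    intro u
    rw [hD]
    exact hAr.divisor_nonneg u
  have hterm : ∀ ρ ∈ Z, (analyticOrderNatAt L ρ : ℤ) ≤ D ρ := by
    intro ρ hρ
    have hm : ρ ∈ closedBall s0 |r| := by
      rw [mem_closedBall, dist_eq_norm, abs_of_pos hr]
      exact hZ ρ hρ
    rw [hD, hAr.divisor_apply hm, jen_ord hL ρ]
    have hne : analyticOrderAt L ρ ≠ ⊤ := by
      intro h
      have h1 : L =ᶠ[nhds ρ] 0 := analyticOrderAt_eq_top.1 h
      have h2 : L = 0 := (hL.differentiableOn.analyticOnNhd isOpen_univ).eq_of_eventuallyEq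
        (fun z _ => analyticAt_const) h1
      rw [h2] at h0
      norm_num at h0
    rw [← Nat.cast_analyticOrderNatAt hne]
    simp
  have hsum : ∑ ρ ∈ Z, (analyticOrderNatAt L ρ : ℤ) ≤ ∑ᶠ u, D u := by
    have hsupp : (fun u => D u).support ⊆ ↑(hfin.toFinset ∪ Z) := by
      intro u hu
      rw [Finset.coe_union, Set.mem_union]
      left
      rw [Set.Finite.coe_toFinset]
      exact hu
    rw [finsum_eq_sum_of_support_subset _ hsupp]
    calc ∑ ρ ∈ Z, (analyticOrderNatAt L ρ : ℤ) ≤ ∑ ρ ∈ Z, D ρ := Finset.sum_le_sum hterm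
      _ ≤ ∑ ρ ∈ hfin.toFinset ∪ Z, D ρ :=
          Finset.sum_le_sum_of_subset_of_nonneg Finset.subset_union_right fun u _ _ => hnn u
  have h5 : (((∑ ρ ∈ Z, (analyticOrderNatAt L ρ : ℤ) : ℤ)) : ℝ) ≤ ((∑ᶠ u, D u : ℤ) : ℝ) :=
    Int.cast_le.2 hsum
  rw [Int.cast_sum] at h5
  simpa using h5

end Pool.Agent.H12.ZN
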