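import Pool.Agent.H12.ZN.JEN
import Pool.Agent.H34.ZN.Targets

/-!
Row JEN of the board zn (MP_52e316_nt).
-/

set_option autoImplicit false

namespace Pool.Agent.H12.ZN

theorem pf_JEN : Pool.Agent.H34.ZN.T_JEN := fun L s0 R r M h1 h2 h3 h4 h5 Z h6 =>
  jen L s0 R r M h1 h2 h3 h4 h5 Z h6

end Pool.Agent.H12.ZN
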