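import Mathlib
import Pool.Agent.H12.ZN.WIN

/-!
From the moments over spaced points at all scales in a window to the number of exceptional unit
windows: any exponent and any centre.
-/

set_option autoImplicit false

namespace Pool.Agent.H12.ZN

open Classical in
/-- the number of exceptional windows -/
theorem win_gen {ι : Type} [Fintype ι] (p E K : ℕ) (hEK : E + 2 ≤ p * K) (v : ι → ℝ → ℝ)
    (P C0 A τ : ℝ) (w : ι → ℝ) (hP : 1 ≤ P) (hw : ∀ i, 0 ≤ w i)
    (hC0 : 0 ≤ C0) (hA : 0 < A)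
    (h : ∀ R : ℝ, 1 ≤ R → ∀ J : ι → Finset ℝ,
      (∀ i, ∀ a ∈ J i, ∀ b ∈ J i, a ≠ b → 1 ≤ |a - b|) → (∀ i, ∀ t ∈ J i, |t - τ| ≤ R * P) →
      ∑ i, w i * ∑ t ∈ J i, v i t ^ p ≤ C0 * R ^ E) :
    ∑ i, w i * (((Finset.Icc ⌈τ - P⌉ ⌊τ + P⌋ : Finset ℤ).filter
      (fun k : ℤ => ∃ u : ℝ, A * (1 + |u - (k : ℝ)|) ^ K < v i u)).card : ℝ) ≤
      2 ^ (E + 3) * C0 / A ^ p := by
  obtain ⟨B, hB⟩ : ∃ B : ι → Finset ℤ, ∀ i, B i = (Finset.Icc ⌈τ - P⌉ ⌊τ + P⌋ : Finset ℤ).filter
      (fun k : ℤ => ∃ u : ℝ, A * (1 + |u - (k : ℝ)|) ^ K < v i u) := ⟨_, fun _ => rfl⟩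
  simp only [← hB]
  -- the scales
  have hsc : ∀ (i : ι) (k : ℤ), ∃ (j : ℕ) (u : ℝ), k ∈ B i →
      1 + |u - k| < 2 ^ (j + 1) ∧ A * (2 ^ j) ^ K ≤ v i u := by
    intro i k
    by_cases hk : k ∈ B i
    · have hk' := hk
      rw [hB, Finset.mem_filter] at hk'
      obtain ⟨-, u, hu⟩ := hk'
      obtain ⟨j, hj1, hj2⟩ := scale (x := 1 + |u - k|) (by linarith [abs_nonneg (u - k)])
      refine ⟨j, u, fun _ => ⟨hj2, ?_⟩⟩
      refine le_trans ?_ hu.le
      gcongr
    · exact ⟨0, 0, fun h => absurd h hk⟩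
  choose j u hu using hsc
  have hkP : ∀ i, ∀ k ∈ B i, |(k : ℝ) - τ| ≤ P := by
    intro i k hk
    rw [hB, Finset.mem_filter, Finset.mem_Icc] at hk
    have h1 : τ - P ≤ k := Int.ceil_le.1 hk.1.1
    have h2 : (k : ℝ) ≤ τ + P := Int.le_floor.1 hk.1.2
    rw [abs_le]
    constructor <;> linarith
  -- one scale, one residue
  have hres : ∀ (n : ℕ) (r : ℤ), ∑ i, w i *
      ((B i).filter (fun k => j i k = n ∧ k % 2 ^ (n + 2) = r)).card * (A * (2 ^ n) ^ K) ^ p ≤
      C0 * (2 ^ (n + 1)) ^ E := by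
    intro n r
    have hinj : ∀ i, Set.InjOn (u i)
        ((B i).filter (fun k => j i k = n ∧ k % 2 ^ (n + 2) = r) : Finset ℤ) := by
      intro i k hk l hl hkl
      by_contra hne
      rw [Finset.mem_coe, Finset.mem_filter] at hk hl
      have h1 := (hu i k hk.1).1
      have h2 := (hu i l hl.1).1
      rw [hk.2.1] at h1
      rw [hl.2.1] at h2
      have h3 := pts_far hne (hk.2.2.trans hl.2.2.symm) h1 h2
      rw [hkl, sub_self, abs_zero] at h3
      linarith
    have h1 := h (2 ^ (n + 1)) (one_le_pow₀ one_le_two)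
      (fun i => ((B i).filter (fun k => j i k = n ∧ k % 2 ^ (n + 2) = r)).image (u i)) (by
        intro i a ha b hb hab
        rw [Finset.mem_image] at ha hb
        obtain ⟨k, hk, rfl⟩ := ha
        obtain ⟨l, hl, rfl⟩ := hb
        rw [Finset.mem_filter] at hk hl
        have h1 := (hu i k hk.1).1
        have h2 := (hu i l hl.1).1
        rw [hk.2.1] at h1
        rw [hl.2.1] at h2
        refine pts_far ?_ (hk.2.2.trans hl.2.2.symm) h1 h2
        rintro rfl
        exact hab rfl) (by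
        intro i t ht
        rw [Finset.mem_image] at ht
        obtain ⟨k, hk, rfl⟩ := ht
        rw [Finset.mem_filter] at hk
        have h1 := (hu i k hk.1).1
        rw [hk.2.1] at h1
        have h2 := hkP i k hk.1
        have h3 : |u i k - τ| ≤ |u i k - k| + |(k : ℝ) - τ| := by
          have := abs_add_le (u i k - k) ((k : ℝ) - τ)
          rwa [sub_add_sub_cancel] at this
        have h4 : (1 : ℝ) ≤ 2 ^ (n + 1) := one_le_pow₀ one_le_two
        nlinarith)
    refine le_trans ?_ h1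
    refine Finset.sum_le_sum fun i _ => ?_
    rw [Finset.sum_image (fun a ha b hb => hinj i ha hb), mul_assoc]
    refine mul_le_mul_of_nonneg_left ?_ (hw i)
    rw [← nsmul_eq_mul]
    refine Finset.card_nsmul_le_sum _ _ _ fun k hk => ?_
    rw [Finset.mem_filter] at hk
    have h2 := (hu i k hk.1).2
    rw [hk.2.1] at h2
    gcongr
  -- one scale
  have hone : ∀ n : ℕ, ∑ i, w i * (((B i).filter (fun k => j i k = n)).card : ℝ) ≤
      2 ^ (E + 2) * C0 / A ^ p * (1 / 2) ^ n := by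
    intro n
    have hcard : ∀ i, (((B i).filter (fun k => j i k = n)).card : ℝ) =
        ∑ r ∈ Finset.Ico (0 : ℤ) (2 ^ (n + 2)),
          (((B i).filter (fun k => j i k = n ∧ k % 2 ^ (n + 2) = r)).card : ℝ) := by
      intro i
      have h1 := Finset.card_eq_sum_card_fiberwise (s := (B i).filter (fun k => j i k = n))
        (t := Finset.Ico (0 : ℤ) (2 ^ (n + 2))) (f := fun k => k % 2 ^ (n + 2)) (by
          intro k _
          rw [Finset.mem_coe, Finset.mem_Ico]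
          exact ⟨Int.emod_nonneg _ (by positivity), Int.emod_lt_of_pos _ (by positivity)⟩)
      rw [h1]
      push_cast
      refine Finset.sum_congr rfl fun r _ => ?_
      rw [Finset.filter_filter]
    have h2 : (∑ i, w i * (((B i).filter (fun k => j i k = n)).card : ℝ)) *
        (A * (2 ^ n) ^ K) ^ p ≤ 2 ^ (n + 2) * (C0 * (2 ^ (n + 1)) ^ E) := by
      calc _ = ∑ r ∈ Finset.Ico (0 : ℤ) (2 ^ (n + 2)), ∑ i, w i *
            ((B i).filter (fun k => j i k = n ∧ k % 2 ^ (n + 2) = r)).card *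
              (A * (2 ^ n) ^ K) ^ p := by
            rw [Finset.sum_comm, Finset.sum_mul]
            refine Finset.sum_congr rfl fun i _ => ?_
            rw [hcard i, Finset.mul_sum, Finset.sum_mul]
        _ ≤ ∑ r ∈ Finset.Ico (0 : ℤ) (2 ^ (n + 2)), C0 * (2 ^ (n + 1)) ^ E :=
            Finset.sum_le_sum fun r _ => hres n r
        _ = _ := by
            rw [Finset.sum_const, nsmul_eq_mul, Int.card_Ico, sub_zero]
            congr 1
            have h3 : ((2 : ℤ) ^ (n + 2)).toNat = 2 ^ (n + 2) := by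
              rw [show (2 : ℤ) ^ (n + 2) = ((2 ^ (n + 2) : ℕ) : ℤ) by push_cast; rfl,
                Int.toNat_natCast]
            rw [h3]
            push_cast
            rfl
    have hA4 : 0 < A ^ p := by positivity
    have hS0 : 0 ≤ ∑ i, w i * (((B i).filter (fun k => j i k = n)).card : ℝ) :=
      Finset.sum_nonneg fun i _ => mul_nonneg (hw i) (Nat.cast_nonneg _)
    obtain ⟨S, hS⟩ : ∃ S : ℝ, S = ∑ i, w i * (((B i).filter (fun k => j i k = n)).card : ℝ) :=
      ⟨_, rfl⟩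
    rw [← hS] at h2 hS0 ⊢
    have h5 : (A * ((2 : ℝ) ^ n) ^ K) ^ p = A ^ p * (2 ^ n) ^ (p * K) := by
      rw [mul_pow, ← pow_mul ((2 : ℝ) ^ n), mul_comm K p]
    have h6 : ((2 : ℝ) ^ n) ^ (E + 2) ≤ (2 ^ n) ^ (p * K) :=
      pow_le_pow_right₀ (one_le_pow₀ one_le_two) hEK
    have h7 : (2 : ℝ) ^ (n + 2) * (C0 * (2 ^ (n + 1)) ^ E) =
        2 ^ (E + 2) * C0 * (2 ^ n) ^ (E + 1) := by
      rw [pow_add 2 n 1, mul_pow]
      ring
    rw [h5, h7] at h2
    have h8 : S * A ^ p * (2 ^ n) * (2 ^ n) ^ (E + 1) ≤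
        2 ^ (E + 2) * C0 * (2 ^ n) ^ (E + 1) := by
      calc _ = S * A ^ p * (2 ^ n) ^ (E + 2) := by ring
        _ ≤ S * A ^ p * (2 ^ n) ^ (p * K) :=
            mul_le_mul_of_nonneg_left h6 (mul_nonneg hS0 hA4.le)
        _ = S * (A ^ p * (2 ^ n) ^ (p * K)) := by ring
        _ ≤ _ := h2
    have h9 : S * A ^ p * (2 ^ n) ≤ 2 ^ (E + 2) * C0 :=
      le_of_mul_le_mul_right h8 (by positivity)
    rw [one_div, inv_pow, ← div_eq_mul_inv, div_div, le_div_iff₀ (by positivity)]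
    calc _ = S * A ^ p * (2 ^ n) := by ring
      _ ≤ _ := h9
  -- all scales
  obtain ⟨T, hT⟩ : ∃ T : Finset ℕ, ∀ i, ∀ k ∈ B i, j i k ∈ T :=
    ⟨Finset.univ.biUnion fun i => (B i).image (j i), fun i k hk =>
      Finset.mem_biUnion.2 ⟨i, Finset.mem_univ _, Finset.mem_image_of_mem _ hk⟩⟩
  calc ∑ i, w i * ((B i).card : ℝ) =
        ∑ n ∈ T, ∑ i, w i * (((B i).filter (fun k => j i k = n)).card : ℝ) := by
        rw [Finset.sum_comm]
        refine Finset.sum_congr rfl fun i _ => ?_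
        rw [← Finset.mul_sum, Finset.card_eq_sum_card_fiberwise (s := B i) (t := T)
          (f := j i) (fun k hk => hT i k hk)]
        push_cast
        rfl
    _ ≤ ∑ n ∈ T, 2 ^ (E + 2) * C0 / A ^ p * (1 / 2) ^ n :=
        Finset.sum_le_sum fun n _ => hone n
    _ = 2 ^ (E + 2) * C0 / A ^ p * ∑ n ∈ T, (1 / 2) ^ n := by rw [Finset.mul_sum]
    _ ≤ 2 ^ (E + 2) * C0 / A ^ p * 2 := mul_le_mul_of_nonneg_left (geo _) (by positivity)
    _ = 2 ^ (E + 3) * C0 / A ^ p := by ring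

end Pool.Agent.H12.ZN
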